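import Pool.Agent.DPS.Final

set_option autoImplicit false

namespace Pool.Agent.Results.MP_9ffd43_co.IntersectingPowerSum

open Finset

/-- The `r`-degree `d_F(R)`: the number of members of `F` containing `R`. -/
def degree {n : ℕ} (F : Finset (Finset (Fin n))) (R : Finset (Fin n)) : ℕ :=
  (F.filter (fun A => R ⊆ A)).card

/-- The degree power sum `ℓ_{r,p}(F)`, the sum of `d_F(R) ^ p` over all `r`-element sets. -/
noncomputable def powerSum {n : ℕ} (r : ℕ) (p : ℝ) (F : Finset (Finset (Fin n))) : ℝ :=
  ∑ R ∈ powersetCard r (univ : Finset (Fin n)), (degree F R : ℝ) ^ p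

/-- `ν(F) ≤ s`: every subfamily of pairwise disjoint members of `F` has at most `s` members. -/
def MatchingAtMost {n : ℕ} (s : ℕ) (F : Finset (Finset (Fin n))) : Prop :=
  ∀ M : Finset (Finset (Fin n)), M ⊆ F →
    (∀ A ∈ M, ∀ B ∈ M, A ≠ B → Disjoint A B) → M.card ≤ s

/-- The family `B_S` of the `k`-element sets meeting `S`. -/
def hitting {n : ℕ} (k : ℕ) (S : Finset (Fin n)) : Finset (Finset (Fin n)) :=
  (powersetCard k (univ : Finset (Fin n))).filter (fun A => (A ∩ S).Nonempty)

/-- The case `s = 1` of the question, for all `r`, all real `p ≥ 1` and all `n` in the range: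
if `1 ≤ r ≤ k - 1`, `n ≥ (2s+1)k - s` with `s = 1`, and `F` is a family of `k`-element sets
with matching number at most `s`, then `ℓ_{r,p}(F) ≤ ℓ_{r,p}(B_S)` for every `S` with
`s` elements, and equality holds only if `F` is the image of `B_S` under a permutation. -/
theorem result (k s r n : ℕ) (p : ℝ) (hk : 2 ≤ k) (hs : s = 1) (hr : 1 ≤ r) (hrk : r ≤ k - 1)
    (hp : 1 ≤ p) (hn : (2 * s + 1) * k - s ≤ n)
    (F : Finset (Finset (Fin n))) (hU : ∀ A ∈ F, A.card = k) (hF : MatchingAtMost s F)
    (S : Finset (Fin n)) (hS : S.card = s) :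
    powerSum r p F ≤ powerSum r p (hitting k S) ∧
      (powerSum r p F = powerSum r p (hitting k S) →
        ∃ σ : Equiv.Perm (Fin n),
          F = (hitting k S).image (fun A => A.map σ.toEmbedding)) := by
  classical
  subst hs
  obtain ⟨z, rfl⟩ := Finset.card_eq_one.mp hS
  have hstar : ∀ y : Fin n, hitting k {y} = DPS.starF k y := by
    intro y
    ext A
    rw [DPS.mem_star]
    simp only [hitting, Finset.mem_filter, Finset.mem_powersetCard, Finset.subset_univ, true_and]
    constructor
    · rintro ⟨h1, x, hx⟩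
      rw [Finset.mem_inter, Finset.mem_singleton] at hx
      exact ⟨h1, hx.2 ▸ hx.1⟩
    · rintro ⟨h1, h2⟩
      exact ⟨h1, y, by simp [h2]⟩
  have hI : ∀ A ∈ F, ∀ B ∈ F, ¬ Disjoint A B := by
    intro A hA B hB hd
    by_cases hAB : A = B
    · subst hAB
      rw [disjoint_self] at hd
      have := hU A hA
      rw [hd] at this
      simp at this
      omega
    · have := hF {A, B} (by
        intro C hC
        rw [Finset.mem_insert, Finset.mem_singleton] at hC
        rcases hC with rfl | rfl
        · exact hA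
        · exact hB) (by
        intro C hC D hD hCD
        rw [Finset.mem_insert, Finset.mem_singleton] at hC hD
        rcases hC with rfl | rfl <;> rcases hD with rfl | rfl
        · exact absurd rfl hCD
        · exact hd
        · exact hd.symm
        · exact absurd rfl hCD)
      rw [Finset.card_pair hAB] at this
      omega
  have hmain := DPS.lpow_le k r p hr (by omega) (by omega) hp F hU hI z
  have hps : ∀ G : Finset (Finset (Fin n)), powerSum r p G = DPS.lpow r p G := fun _ => rfl
  rw [hps, hps, hstar]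
  refine ⟨hmain.1, fun h => ?_⟩
  obtain ⟨y, hy⟩ := hmain.2 h
  refine ⟨Equiv.swap z y, ?_⟩
  rw [hy]
  ext A
  rw [Finset.mem_image]
  constructor
  · intro hA
    refine ⟨DPS.sw z y A, ?_, DPS.sw_sw z y A⟩
    rw [DPS.mem_star] at hA ⊢
    rw [DPS.card_sw, DPS.mem_sw_left]
    exact hA
  · rintro ⟨B, hB, rfl⟩
    rw [DPS.mem_star] at hB ⊢
    change (DPS.sw z y B).card = k ∧ y ∈ DPS.sw z y B
    rw [DPS.card_sw, DPS.mem_sw_right]
    exact hB

end Pool.Agent.Results.MP_9ffd43_co.IntersectingPowerSum
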