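import Pool.Agent.DPG.Final

set_option autoImplicit false

namespace Pool.Agent.Results.MP_9ffd43_co.PowerSumLinearRange

open Finset

/-- The `r`-degree `d_F(R)`: the number of members of `F` containing `R`. -/
def degree {n : ℕ} (F : Finset (Finset (Fin n))) (R : Finset (Fin n)) : ℕ :=
  (F.filter (fun A => R ⊆ A)).card

/-- The degree power sum `ℓ_{r,p}(F)`, the sum of `d_F(R) ^ p` over all `r`-element sets. -/
noncomputable def powerSum {n : ℕ} (r : ℕ) (p : ℝ) (F : Finset (Finset (Fin n))) : ℝ :=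
  ∑ R ∈ powersetCard r (univ : Finset (Fin n)), (degree F R : ℝ) ^ p

/-- `ν(F) ≤ s`: every subfamily of pairwise disjoint members of `F` has at most `s` members. -/
def MatchingAtMost {n : ℕ} (s : ℕ) (F : Finset (Finset (Fin n))) : Prop :=
  ∀ M : Finset (Finset (Fin n)), M ⊆ F →
    (∀ A ∈ M, ∀ B ∈ M, A ≠ B → Disjoint A B) → M.card ≤ s

/-- The family `B_S` of the `k`-element sets meeting `S`. -/
def hitting {n : ℕ} (k : ℕ) (S : Finset (Fin n)) : Finset (Finset (Fin n)) :=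
  (powersetCard k (univ : Finset (Fin n))).filter (fun A => (A ∩ S).Nonempty)

/-- The question for all `s ≥ 1`, all `1 ≤ r ≤ k - 1`, all real `p ≥ 1`, and all
`n ≥ q (k - 1) + s + 1`, where `q` is any integer for which there are integers `t` and `w` with
`0 ≤ w ≤ k - r`, `(s + 1)(k - 1) ≤ (t - s)(r + w)` and
`(t - 1)(k - 1 + w) ≤ (q - 1)(k - 1)`.
For instance `t = 2s + 1`, `w = k - r`, `q = 4s + 1` gives all `n ≥ (4s + 1)k - 3s`. -/
theorem result (k s r n : ℕ) (p : ℝ) (hk : 2 ≤ k) (hs : 1 ≤ s) (hr : 1 ≤ r)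
    (hrk : r ≤ k - 1) (hp : 1 ≤ p)
    (hn : ∃ t w q : ℕ, w ≤ k - r ∧ (s + 1) * (k - 1) ≤ (t - s) * (r + w) ∧
      (t - 1) * (k - 1 + w) ≤ (q - 1) * (k - 1) ∧ q * (k - 1) + s + 1 ≤ n)
    (F : Finset (Finset (Fin n))) (hU : ∀ A ∈ F, A.card = k) (hF : MatchingAtMost s F)
    (S : Finset (Fin n)) (hS : S.card = s) :
    powerSum r p F ≤ powerSum r p (hitting k S) ∧
      (powerSum r p F = powerSum r p (hitting k S) →
        ∃ σ : Equiv.Perm (Fin n),
          F = (hitting k S).image (fun A => A.map σ.toEmbedding)) := by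
  classical
  obtain ⟨t, w, q, hw, h1, h2, hnq⟩ := hn
  have hhit : ∀ T : Finset (Fin n), hitting k T = DPG.hitF k T := by
    intro T
    ext A
    rw [DPG.mem_hitF]
    simp only [hitting, Finset.mem_filter, Finset.mem_powersetCard, Finset.subset_univ, true_and]
    rw [Finset.not_disjoint_iff_nonempty_inter]
  -- `q ≥ 2s + 1`
  have hq : 2*s+1 ≤ q := by
    obtain ⟨a, rfl⟩ : ∃ a, k = a+1 := ⟨k-1, by omega⟩
    simp only [Nat.add_sub_cancel] at *
    obtain ⟨T, hT⟩ : ∃ T, t - s = T := ⟨_, rfl⟩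
    have hT1 : 1 ≤ T := by
      by_contra hc
      have : T = 0 := by omega
      rw [hT, this] at h1
      have : 0 < (s+1)*a := Nat.mul_pos (Nat.succ_pos _) (by omega)
      omega
    obtain ⟨s', rfl⟩ : ∃ s', s = s'+1 := ⟨s-1, by omega⟩
    have ht : t - 1 = T + s' := by omega
    rw [hT] at h1
    rw [ht] at h2
    have h3 : T * (r + w) ≤ T * (a + w) := Nat.mul_le_mul_left _ (by omega)
    have h4 : s' * a ≤ s' * (a + w) := Nat.mul_le_mul_left _ (by omega)
    have h5 : (T + s') * (a + w) = T * (a+w) + s' * (a+w) := by ring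
    have h6 : (s'+1+1) * a + s' * a = (2*s'+2) * a := by ring
    have h7 : (2*s'+2) * a ≤ (q-1) * a := by omega
    have h8 := Nat.le_of_mul_le_mul_right h7 (by omega)
    omega
  have hn' : (2*s+1)*(k-1)+s+1 ≤ n := by
    have := Nat.mul_le_mul_right (k-1) hq
    omega
  have hmain := DPG.lpow_partial k r s t w q p hr (by omega) hs hn' hp hw h1 h2 hnq F hU hF S hS
  have hps : ∀ G : Finset (Finset (Fin n)), powerSum r p G = DPS.lpow r p G := fun _ => rfl
  rw [hps, hps, hhit]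
  refine ⟨hmain.1, fun h => ?_⟩
  obtain ⟨T, hT, hFT⟩ := hmain.2 h
  obtain ⟨σ, hσ⟩ := DPS.exists_perm_map S T (by rw [hS, hT])
  refine ⟨σ, ?_⟩
  rw [hFT, ← hσ]
  ext A
  rw [DPG.mem_hitF, Finset.mem_image]
  constructor
  · rintro ⟨hA1, hA2⟩
    refine ⟨A.map σ.symm.toEmbedding, ?_, ?_⟩
    · rw [DPG.mem_hitF, Finset.card_map]
      refine ⟨hA1, fun hd => hA2 ?_⟩
      rw [Finset.disjoint_left] at hd ⊢
      intro x hx hx'
      rw [Finset.mem_map] at hx'
      obtain ⟨y, hy, rfl⟩ := hx'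
      apply hd _ hy
      rw [Finset.mem_map]
      exact ⟨_, hx, by simp⟩
    · ext x
      simp
  · rintro ⟨B, hB, rfl⟩
    rw [DPG.mem_hitF] at hB
    rw [Finset.card_map]
    refine ⟨hB.1, fun hd => hB.2 ?_⟩
    rwa [Finset.disjoint_map] at hd

end Pool.Agent.Results.MP_9ffd43_co.PowerSumLinearRange
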